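import Pool.Agent.H87.EBK.Stmts

/-!
Row PRD of the board `ebk` (MP_93721d_nt): products of graphs.
-/

set_option autoImplicit false

namespace Pool.EBK

theorem prd_sq {x y : ℚ} (h : IsSquare y) : IsSquare (x ^ 2 * y) := by
  obtain ⟨r, hr⟩ := h
  exact ⟨x * r, by rw [hr]; ring⟩

theorem prd_ind (hL : LAB) (V : Type) [Finite V] : ∀ (d : ℕ) (W : Fin d → Type)
    (H : ∀ i, SimpleGraph (W i)) (f : ∀ i, V → W i), (∀ i, Finite (W i)) →
    (∀ i, ¬ HasK4Minor (H i)) → ∀ F : Finset ℚ,
    ∃ l : V → ℚ, (∀ u, 0 < l u) ∧ (∀ u w, (∃ i, f i u ≠ f i w) → l u / l w ∉ F) ∧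
      (∀ u w, (∀ i, f i u = f i w) → l u = l w) ∧
      ∀ u w, (∃ i, (H i).Adj (f i u) (f i w) ∧ ∀ j, j ≠ i → f j u = f j w) →
        IsSquare (l u ^ 2 + l w ^ 2) := by
  classical
  intro d
  induction d with
  | zero =>
    intro W H f _ _ F
    exact ⟨fun _ => 1, fun _ => one_pos, fun _ _ ⟨i, _⟩ => i.elim0, fun _ _ _ => rfl,
      fun _ _ ⟨i, _⟩ => i.elim0⟩
  | succ d ih =>
    intro W H f hW hH F
    obtain ⟨l, l0, lF, le, ls⟩ := ih (fun i => W i.castSucc) (fun i => H i.castSucc)
      (fun i => f i.castSucc) (fun i => hW i.castSucc) (fun i => hH i.castSucc) F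
    have := Fintype.ofFinite V
    let F' : Finset ℚ := (F ×ˢ (Finset.univ : Finset (V × V))).image
      (fun x => x.1 * (l x.2.2 / l x.2.1))
    have := hW (Fin.last d)
    obtain ⟨m, m0, mF, ms⟩ := hL (W (Fin.last d)) (H (Fin.last d)) F' (hH (Fin.last d))
    have hne : ∀ u, l u ≠ 0 := fun u => (l0 u).ne'
    have hme : ∀ a, m a ≠ 0 := fun a => (m0 a).ne'
    refine ⟨fun u => l u * m (f (Fin.last d) u), fun u => mul_pos (l0 u) (m0 _), ?_, ?_, ?_⟩
    · rintro u w ⟨i, hi⟩
      show l u * m (f (Fin.last d) u) / (l w * m (f (Fin.last d) w)) ∉ F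
      by_cases hab : f (Fin.last d) u = f (Fin.last d) w
      · rw [hab, mul_div_mul_right _ _ (hme _)]
        apply lF u w
        have hi' : i ≠ Fin.last d := by
          rintro rfl
          exact hi hab
        obtain ⟨j, rfl⟩ := Fin.exists_castSucc_eq.2 hi'
        exact ⟨j, hi⟩
      · intro hmem
        apply mF _ _ hab
        refine Finset.mem_image.2 ⟨(l u * m (f (Fin.last d) u) / (l w * m (f (Fin.last d) w)),
          (u, w)), Finset.mem_product.2 ⟨hmem, Finset.mem_univ _⟩, ?_⟩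
        show l u * m (f (Fin.last d) u) / (l w * m (f (Fin.last d) w)) * (l w / l u) = _
        have h1 := hne u
        have h2 := hne w
        have h3 := hme (f (Fin.last d) w)
        field_simp
    · intro u w h
      show l u * m (f (Fin.last d) u) = l w * m (f (Fin.last d) w)
      rw [h (Fin.last d), le u w fun i => h i.castSucc]
    · rintro u w ⟨i, hi, hj⟩
      show IsSquare ((l u * m (f (Fin.last d) u)) ^ 2 + (l w * m (f (Fin.last d) w)) ^ 2)
      by_cases hil : i = Fin.last d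
      · subst hil
        have h1 : l u = l w := le u w fun j => hj j.castSucc (Fin.castSucc_lt_last j).ne
        obtain ⟨⟨-, -, h2⟩, -⟩ := ms _ _ hi
        have e : (l u * m (f (Fin.last d) u)) ^ 2 + (l w * m (f (Fin.last d) w)) ^ 2 =
            (l u) ^ 2 * (m (f (Fin.last d) u) ^ 2 + m (f (Fin.last d) w) ^ 2) := by
          rw [h1]
          ring
        rw [e]
        exact prd_sq h2
      · obtain ⟨i', rfl⟩ := Fin.exists_castSucc_eq.2 hil
        have h1 : f (Fin.last d) u = f (Fin.last d) w := hj _ (Ne.symm hil)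
        have h2 := ls u w ⟨i', hi, fun j hji => hj j.castSucc fun h =>
          hji (Fin.castSucc_injective d h)⟩
        have e : (l u * m (f (Fin.last d) u)) ^ 2 + (l w * m (f (Fin.last d) w)) ^ 2 =
            (m (f (Fin.last d) u)) ^ 2 * (l u ^ 2 + l w ^ 2) := by
          rw [h1]
          ring
        rw [e]
        exact prd_sq h2

theorem prd (hL : LAB) : PRD := by
  intro V _ d W H f hW hH
  obtain ⟨l, l0, lF, -, ls⟩ := prd_ind hL V d W H f hW hH {1}
  refine ⟨l, l0, ?_, ls⟩
  intro u w h he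
  apply lF u w h
  rw [he, div_self (l0 w).ne', Finset.mem_singleton]

end Pool.EBK
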